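import Pool.Agent.Run7.h288.SR.Upper

/-!
# The number of slices is small compared with `p ^ s`
-/

set_option autoImplicit false
set_option linter.unusedSectionVars false

namespace Run7.h288.SR

variable {p : ℕ}

/-- the centred digit -/
def xd (p : ℕ) (b : Fin p) : ℤ := 2 * (b.val : ℤ) - ((p : ℤ) - 1)

theorem sum_xd : ∑ b : Fin p, xd p b = 0 := by
  have h1 : ∑ b : Fin p, xd p b = ∑ b : Fin p, xd p b.rev :=
    (Equiv.sum_comp Fin.revPerm (xd p)).symm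
  have h2 : ∀ b : Fin p, xd p b.rev = - xd p b := by
    intro b
    unfold xd
    have h3 := b.2
    rw [Fin.val_rev]
    push_cast [show b.val + 1 ≤ p by omega]
    ring
  rw [Finset.sum_congr rfl fun b _ => h2 b, Finset.sum_neg_distrib] at h1
  linarith

theorem xd_sq (b : Fin p) : xd p b ^ 2 ≤ ((p : ℤ) - 1) ^ 2 := by
  unfold xd
  have h3 : (b.val : ℤ) ≤ (p : ℤ) - 1 := by
    have := b.2
    omega
  have h4 : (0 : ℤ) ≤ b.val := by positivity
  nlinarith [mul_nonneg h4 (sub_nonneg.mpr h3)]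

theorem sum_cons {M : Type} [AddCommMonoid M] (s : ℕ) (g : (Fin (s + 1) → Fin p) → M) :
    ∑ β, g β = ∑ b : Fin p, ∑ β : Fin s → Fin p, g (Fin.cons b β) := by
  rw [← Fintype.sum_prod_type' (fun (b : Fin p) (β : Fin s → Fin p) => g (Fin.cons b β))]
  exact (Equiv.sum_comp (Fin.consEquiv fun _ : Fin (s + 1) => Fin p) g).symm

theorem sum1 (s : ℕ) : ∑ β : Fin s → Fin p, ∑ i, xd p (β i) = 0 := by
  induction s with
  | zero => simp
  | succ s ih =>
    rw [sum_cons]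
    simp only [Fin.sum_univ_succ, Fin.cons_zero, Fin.cons_succ]
    simp only [Finset.sum_add_distrib, ih, add_zero, Finset.sum_const]
    rw [← Finset.smul_sum, sum_xd, smul_zero]

theorem sum2 (s : ℕ) : ∑ β : Fin s → Fin p, (∑ i, xd p (β i)) ^ 2 ≤
    (s : ℤ) * (p : ℤ) ^ s * ((p : ℤ) - 1) ^ 2 := by
  induction s with
  | zero => simp
  | succ s ih =>
    rw [sum_cons]
    simp only [Fin.sum_univ_succ, Fin.cons_zero, Fin.cons_succ]
    have h1 : ∀ b : Fin p, ∑ β : Fin s → Fin p, (xd p b + ∑ i, xd p (β i)) ^ 2 =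
        (p : ℤ) ^ s * xd p b ^ 2 + ∑ β : Fin s → Fin p, (∑ i, xd p (β i)) ^ 2 := by
      intro b
      have h2 : ∀ β : Fin s → Fin p, (xd p b + ∑ i, xd p (β i)) ^ 2 =
          xd p b ^ 2 + 2 * xd p b * (∑ i, xd p (β i)) + (∑ i, xd p (β i)) ^ 2 := fun β => by ring
      rw [Finset.sum_congr rfl fun β _ => h2 β, Finset.sum_add_distrib, Finset.sum_add_distrib,
        ← Finset.mul_sum, sum1, mul_zero, add_zero, Finset.sum_const, Finset.card_univ,
        Fintype.card_fun, Fintype.card_fin, Fintype.card_fin, nsmul_eq_mul]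
      push_cast
      ring
    rw [Finset.sum_congr rfl fun b _ => h1 b, Finset.sum_add_distrib, ← Finset.mul_sum,
      Finset.sum_const, Finset.card_univ, Fintype.card_fin, nsmul_eq_mul]
    have h3 : ∑ b : Fin p, xd p b ^ 2 ≤ (p : ℤ) * ((p : ℤ) - 1) ^ 2 := by
      refine (Finset.sum_le_sum fun b _ => xd_sq b).trans ?_
      rw [Finset.sum_const, Finset.card_univ, Fintype.card_fin, nsmul_eq_mul]
    have hp : (0 : ℤ) ≤ p := by positivity
    have hps : (0 : ℤ) ≤ (p : ℤ) ^ s := by positivity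
    calc (p : ℤ) ^ s * ∑ b : Fin p, xd p b ^ 2 + (p : ℤ) * ∑ β : Fin s → Fin p, (∑ i, xd p (β i)) ^ 2
        ≤ (p : ℤ) ^ s * ((p : ℤ) * ((p : ℤ) - 1) ^ 2) +
          (p : ℤ) * ((s : ℤ) * (p : ℤ) ^ s * ((p : ℤ) - 1) ^ 2) :=
          add_le_add (mul_le_mul_of_nonneg_left h3 hps) (mul_le_mul_of_nonneg_left ih hp)
      _ = ((s + 1 : ℕ) : ℤ) * (p : ℤ) ^ (s + 1) * ((p : ℤ) - 1) ^ 2 := by
          push_cast
          ring

theorem card_TT (hp : 2 ≤ p) (s d : ℕ) (hd : 3 ≤ d) :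
    (TT p s d).card * s ≤ 9 * d * p ^ s := by
  by_cases hs : s = 0
  · rw [hs, mul_zero]
    exact Nat.zero_le _
  have key : ∀ x ∈ TT p s d, (((p : ℤ) - 1) * s) ^ 2 ≤ 9 * (∑ i, xd p (x.2 i)) ^ 2 := by
    intro x hx
    have h1 : d * ∑ i, (x.2 i).val ≤ (p - 1) * s := (Finset.mem_filter.mp hx).2
    have h2 : 3 * ∑ i, (x.2 i).val ≤ (p - 1) * s := (Nat.mul_le_mul_right _ hd).trans h1
    have h3 : (3 : ℤ) * ((∑ i, (x.2 i).val : ℕ) : ℤ) ≤ ((p : ℤ) - 1) * s := by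
      have h4 : ((3 * ∑ i, (x.2 i).val : ℕ) : ℤ) ≤ (((p - 1) * s : ℕ) : ℤ) := by exact_mod_cast h2
      push_cast [show 1 ≤ p by omega] at h4
      push_cast
      exact h4
    have h5 : ∑ i, xd p (x.2 i) = 2 * ((∑ i, (x.2 i).val : ℕ) : ℤ) - ((p : ℤ) - 1) * s := by
      unfold xd
      rw [Finset.sum_sub_distrib, ← Finset.mul_sum, Finset.sum_const, Finset.card_univ,
        Fintype.card_fin, nsmul_eq_mul]
      push_cast
      ring
    rw [h5]
    set u : ℤ := ((∑ i, (x.2 i).val : ℕ) : ℤ) with hu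
    set w : ℤ := ((p : ℤ) - 1) * s with hw
    have hu0 : 0 ≤ u := by positivity
    nlinarith
  have h1 : ((TT p s d).card : ℤ) * (((p : ℤ) - 1) * s) ^ 2 ≤
      9 * (d * ((s : ℤ) * (p : ℤ) ^ s * ((p : ℤ) - 1) ^ 2)) := by
    calc ((TT p s d).card : ℤ) * (((p : ℤ) - 1) * s) ^ 2
        = ∑ _x ∈ TT p s d, (((p : ℤ) - 1) * s) ^ 2 := by
          rw [Finset.sum_const, nsmul_eq_mul]
      _ ≤ ∑ x ∈ TT p s d, 9 * (∑ i, xd p (x.2 i)) ^ 2 := Finset.sum_le_sum key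
      _ ≤ ∑ x : Fin d × (Fin s → Fin p), 9 * (∑ i, xd p (x.2 i)) ^ 2 :=
          Finset.sum_le_sum_of_subset_of_nonneg (Finset.subset_univ _)
            fun x _ _ => by positivity
      _ = 9 * (d * ∑ β : Fin s → Fin p, (∑ i, xd p (β i)) ^ 2) := by
          rw [Fintype.sum_prod_type]
          show ∑ _x : Fin d, ∑ y : Fin s → Fin p, 9 * (∑ i, xd p (y i)) ^ 2 = _
          rw [Finset.sum_const, Finset.card_univ, Fintype.card_fin,
            nsmul_eq_mul, ← Finset.mul_sum]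
          ring
      _ ≤ 9 * (d * ((s : ℤ) * (p : ℤ) ^ s * ((p : ℤ) - 1) ^ 2)) := by
          have := sum2 (p := p) s
          have hd0 : (0 : ℤ) ≤ d := by positivity
          nlinarith [mul_le_mul_of_nonneg_left this hd0]
  have hp1 : (1 : ℤ) ≤ (p : ℤ) - 1 := by
    have : (2 : ℤ) ≤ p := by exact_mod_cast hp
    linarith
  have hs1 : (1 : ℤ) ≤ s := by
    have : 1 ≤ s := Nat.one_le_iff_ne_zero.mpr hs
    exact_mod_cast this
  have h2 : (((TT p s d).card : ℤ) * s) * (s * ((p : ℤ) - 1) ^ 2) ≤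
      (9 * d * (p : ℤ) ^ s) * (s * ((p : ℤ) - 1) ^ 2) := by
    calc (((TT p s d).card : ℤ) * s) * (s * ((p : ℤ) - 1) ^ 2)
        = ((TT p s d).card : ℤ) * (((p : ℤ) - 1) * s) ^ 2 := by ring
      _ ≤ 9 * (d * ((s : ℤ) * (p : ℤ) ^ s * ((p : ℤ) - 1) ^ 2)) := h1
      _ = (9 * d * (p : ℤ) ^ s) * (s * ((p : ℤ) - 1) ^ 2) := by ring
  have h3 : (0 : ℤ) < s * ((p : ℤ) - 1) ^ 2 := by positivity
  have h4 := le_of_mul_le_mul_right h2 h3
  exact_mod_cast h4

end Run7.h288.SR
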