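import Pool.Agent.Run7.h288.SR.Indep

/-!
# Existence of a decomposition, degree of a multilinear polynomial
-/

set_option autoImplicit false
set_option linter.unusedSectionVars false

namespace Run7.h288.SR

open MvPolynomial

variable {K : Type} [Field K] {ι : Type} [Fintype ι] {d : ℕ}

theorem sum_exponents (P : MvPolynomial (Fin d × ι) K)
    (hP : ∀ m ∈ P.support, ∀ j : Fin d, ∑ b : ι, m (j, b) = 1) (m : Fin d × ι →₀ ℕ)
    (hm : m ∈ P.support) : (m.sum fun _ e => e) = d := by
  rw [Finsupp.sum_fintype _ _ (fun _ => rfl), Fintype.sum_prod_type,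
    Finset.sum_congr rfl fun i _ => hP m hm i]
  simp

theorem totalDegree_multilinear (P : MvPolynomial (Fin d × ι) K)
    (hP : ∀ m ∈ P.support, ∀ j : Fin d, ∑ b : ι, m (j, b) = 1) (hne : P ≠ 0) :
    P.totalDegree = d := by
  refine le_antisymm ?_ ?_
  · refine Finset.sup_le fun m hm => ?_
    exact (sum_exponents P hP m hm).le
  · obtain ⟨m, hm⟩ := support_nonempty.mpr hne
    exact (sum_exponents P hP m hm).symm.le.trans (le_totalDegree hm)

theorem exists_sumProd (hd : 2 ≤ d) (P : MvPolynomial (Fin d × ι) K)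
    (hP : ∀ m ∈ P.support, ∀ j : Fin d, ∑ b : ι, m (j, b) = 1) : ∃ r, SumProd d r P := by
  classical
  let j₀ : Fin d := ⟨0, by omega⟩
  have hb : ∀ m : {m // m ∈ P.support}, ∃ b : ι, m.1 (j₀, b) ≠ 0 := by
    intro m
    by_contra hc
    push Not at hc
    have h1 := hP m.1 m.2 j₀
    rw [Finset.sum_eq_zero fun b _ => hc b] at h1
    exact zero_ne_one h1
  choose b hb using hb
  let f := P.support.equivFin
  refine ⟨P.support.card, fun k => X (j₀, b (f.symm k)),
    fun k => monomial ((f.symm k).1 - Finsupp.single (j₀, b (f.symm k)) 1)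
      (coeff (f.symm k).1 P), ?_, ?_⟩
  · intro k
    refine ⟨by rw [totalDegree_X]; omega, ?_⟩
    refine lt_of_le_of_lt (totalDegree_monomial_le _ _) ?_
    have hle : Finsupp.single (j₀, b (f.symm k)) 1 ≤ (f.symm k).1 := by
      rw [Finsupp.single_le_iff]
      exact Nat.one_le_iff_ne_zero.mpr (hb (f.symm k))
    have h1 := sum_exponents P hP _ (f.symm k).2
    have h2 : (f.symm k).1 = ((f.symm k).1 - Finsupp.single (j₀, b (f.symm k)) 1) +
        Finsupp.single (j₀, b (f.symm k)) 1 := (tsub_add_cancel_of_le hle).symm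
    rw [h2, Finsupp.sum_add_index' (fun _ => rfl) (fun _ _ _ => rfl),
      Finsupp.sum_single_index rfl] at h1
    have h3 : (((f.symm k).1 - Finsupp.single (j₀, b (f.symm k)) 1).sum fun _ => id) =
        (((f.symm k).1 - Finsupp.single (j₀, b (f.symm k)) 1).sum fun _ e => e) := rfl
    omega
  · have h1 : P = ∑ m : {m // m ∈ P.support}, X (j₀, b m) *
        monomial (m.1 - Finsupp.single (j₀, b m) 1) (coeff m.1 P) := by
      conv_lhs => rw [P.as_sum, ← Finset.sum_coe_sort P.support (fun m => monomial m (coeff m P))]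
      refine Finset.sum_congr rfl fun m _ => ?_
      have hle : Finsupp.single (j₀, b m) 1 ≤ m.1 := by
        rw [Finsupp.single_le_iff]
        exact Nat.one_le_iff_ne_zero.mpr (hb m)
      rw [X, monomial_mul, one_mul, add_tsub_cancel_of_le hle]
    conv_lhs => rw [h1]
    exact (Equiv.sum_comp f.symm (fun m : {m // m ∈ P.support} => X (j₀, b m) *
        monomial (m.1 - Finsupp.single (j₀, b m) 1) (coeff m.1 P))).symm

end Run7.h288.SR
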