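import Pool.Agent.Run7.h288.SR.Lower

/-!
# The multiplication form of `K (a_1 ^ (1/p), …, a_s ^ (1/p))` over `K`
-/

set_option autoImplicit false
set_option linter.unusedSectionVars false

namespace Run7.h288.SR

open MvPolynomial

variable {K E : Type} [Field K] [Field E] [Algebra K E] {p s : ℕ}

/-- the monomial `t ^ n` -/
def T (t : Fin s → E) (n : Fin s → ℕ) : E := ∏ i, t i ^ n i

/-- the basis elements `t ^ α`, `0 ≤ α_i < p` -/
def eb (t : Fin s → E) (α : Fin s → Fin p) : E := T t fun i => (α i).val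

/-- the coefficients of the form -/
def cf (p : ℕ) (a : Fin s → K) (n : Fin s → ℕ) : K :=
  if ∀ i, n i % p = p - 1 then ∏ i, a i ^ (n i / p) else 0

theorem T_add (t : Fin s → E) (m n : Fin s → ℕ) : T t (fun i => m i + n i) = T t m * T t n := by
  unfold T
  rw [← Finset.prod_mul_distrib]
  exact Finset.prod_congr rfl fun i _ => pow_add _ _ _

theorem T_sum {d : ℕ} (t : Fin s → E) (m : Fin d → Fin s → ℕ) :
    T t (fun i => ∑ j, m j i) = ∏ j, T t (m j) := by
  unfold T
  rw [Finset.prod_comm]
  exact Finset.prod_congr rfl fun i _ => (Finset.prod_pow_eq_pow_sum _ _ _).symm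

theorem T_mod [NeZero p] (t : Fin s → E) (a : Fin s → K)
    (ht : ∀ i, t i ^ p = algebraMap K E (a i)) (n : Fin s → ℕ) :
    T t n = (∏ i, a i ^ (n i / p)) •
      eb t (fun i => (⟨n i % p, Nat.mod_lt _ (Nat.pos_of_ne_zero (NeZero.ne p))⟩ : Fin p)) := by
  unfold eb T
  rw [Algebra.smul_def, map_prod, ← Finset.prod_mul_distrib]
  refine Finset.prod_congr rfl fun i _ => ?_
  rw [map_pow, ← ht i, ← pow_mul, ← pow_add, Nat.div_add_mod]

theorem exists_lam [NeZero p] (t : Fin s → E) (a : Fin s → K)
    (ht : ∀ i, t i ^ p = algebraMap K E (a i))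
    (hli : LinearIndependent K (eb t : (Fin s → Fin p) → E)) :
    ∃ lam : E →ₗ[K] K, ∀ n, lam (T t n) = cf p a n := by
  classical
  have hp : 0 < p := Nat.pos_of_ne_zero (NeZero.ne p)
  let top : Fin s → Fin p := fun _ => ⟨p - 1, by omega⟩
  obtain ⟨g, hg⟩ := LinearMap.exists_extend ((Finsupp.lapply top).comp hli.repr)
  refine ⟨g, fun n => ?_⟩
  have h1 : ∀ α, g (eb t α) = if α = top then 1 else 0 := by
    intro α
    have h2 : eb t α ∈ Submodule.span K (Set.range (eb t : (Fin s → Fin p) → E)) :=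
      Submodule.subset_span ⟨α, rfl⟩
    have h3 := LinearMap.congr_fun hg ⟨eb t α, h2⟩
    rw [LinearMap.comp_apply, Submodule.subtype_apply, LinearMap.comp_apply] at h3
    rw [h3]
    have h4 : hli.repr ⟨eb t α, h2⟩ = Finsupp.single α 1 := by
      exact hli.repr_eq_single α ⟨eb t α, h2⟩ rfl
    show (Finsupp.lapply top : ((Fin s → Fin p) →₀ K) →ₗ[K] K) (hli.repr ⟨eb t α, h2⟩) = _
    rw [h4, Finsupp.lapply_apply, Finsupp.single_apply]
  rw [T_mod t a ht, map_smul, h1, cf, smul_eq_mul]
  by_cases hn : ∀ i, n i % p = p - 1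
  · rw [if_pos hn, if_pos, mul_one]
    funext i
    exact Fin.ext (hn i)
  · rw [if_neg hn, if_neg, mul_zero]
    intro hc
    exact hn fun i => congrArg Fin.val (congrFun hc i)

/-- the multiplication form as a polynomial -/
noncomputable def form (p : ℕ) (a : Fin s → K) (d : ℕ) :
    MvPolynomial (Fin d × (Fin s → Fin p)) K :=
  ∑ α : Fin d → (Fin s → Fin p), C (cf p a fun i => ∑ j, (α j i).val) * ∏ j, X (j, α j)

theorem form_multilinear (a : Fin s → K) (d : ℕ) :
    ∀ m ∈ (form p a d).support, ∀ j : Fin d, ∑ b : Fin s → Fin p, m (j, b) = 1 := by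
  classical
  intro m hm j
  unfold form at hm
  have h1 := Finset.mem_biUnion.mp (support_sum hm)
  obtain ⟨α, _, hα⟩ := h1
  have h2 : (∏ j, X (j, α j) : MvPolynomial (Fin d × (Fin s → Fin p)) K) =
      monomial (∑ j, Finsupp.single (j, α j) 1) 1 := by
    rw [monomial_sum_one]
    rfl
  rw [h2, C_mul_monomial] at hα
  have h3 := Finset.mem_singleton.mp (support_monomial_subset hα)
  rw [h3]
  have h4 : ∀ b, (∑ j', Finsupp.single (j', α j') 1 : Fin d × (Fin s → Fin p) →₀ ℕ) (j, b) =
      if b = α j then 1 else 0 := by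
    intro b
    rw [Finsupp.finsetSum_apply, Finset.sum_eq_single j]
    · rw [Finsupp.single_apply]
      by_cases hb : b = α j
      · rw [if_pos (by rw [hb]), if_pos hb]
      · rw [if_neg, if_neg hb]
        intro hc
        exact hb (Prod.ext_iff.mp hc).2.symm
    · intro j' _ hj'
      rw [Finsupp.single_apply, if_neg]
      intro hc
      exact hj' (Prod.ext_iff.mp hc).1
    · intro hc
      exact absurd (Finset.mem_univ j) hc
  simp only [h4]
  rw [Finset.sum_ite_eq' Finset.univ (α j) (fun _ => 1), if_pos (Finset.mem_univ _)]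

theorem eval_form [NeZero p] (t : Fin s → E) (a : Fin s → K) (lam : E →ₗ[K] K)
    (hlam : ∀ n, lam (T t n) = cf p a n) (d : ℕ) (v : Fin d → (Fin s → Fin p) → K) :
    eval (fun x => v x.1 x.2) (form p a d) = lam (∏ j, ∑ α, v j α • eb t α) := by
  classical
  unfold form
  rw [map_sum, Finset.prod_univ_sum, map_sum, Fintype.piFinset_univ]
  refine Finset.sum_congr rfl fun α _ => ?_
  rw [map_mul, map_prod, eval_C]
  have h1 : ∏ j, v j (α j) • eb t (α j) =
      (∏ j, v j (α j)) • T t (fun i => ∑ j, (α j i).val) := by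
    rw [T_sum, Algebra.smul_def, map_prod, ← Finset.prod_mul_distrib]
    exact Finset.prod_congr rfl fun j _ => Algebra.smul_def _ _
  rw [h1, map_smul, hlam, smul_eq_mul, mul_comm]
  congr 1
  exact Finset.prod_congr rfl fun j _ => eval_X _

theorem span_mul_mem [NeZero p] (t : Fin s → E) (a : Fin s → K)
    (ht : ∀ i, t i ^ p = algebraMap K E (a i)) (x y : E)
    (hx : x ∈ Submodule.span K (Set.range (eb t : (Fin s → Fin p) → E)))
    (hy : y ∈ Submodule.span K (Set.range (eb t : (Fin s → Fin p) → E))) :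
    x * y ∈ Submodule.span K (Set.range (eb t : (Fin s → Fin p) → E)) := by
  have h1 := Submodule.mul_mem_mul hx hy
  rw [Submodule.span_mul_span] at h1
  refine (Submodule.span_le.mpr ?_) h1
  rintro _ ⟨_, ⟨α, rfl⟩, _, ⟨β, rfl⟩, rfl⟩
  show eb t α * eb t β ∈ Submodule.span K (Set.range (eb t : (Fin s → Fin p) → E))
  have h2 : eb t α * eb t β = T t (fun i => (α i).val + (β i).val) := (T_add t _ _).symm
  rw [h2, T_mod t a ht]
  exact Submodule.smul_mem _ _ (Submodule.subset_span ⟨_, rfl⟩)

theorem prod_mem_span [NeZero p] (t : Fin s → E) (a : Fin s → K)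
    (ht : ∀ i, t i ^ p = algebraMap K E (a i)) {ι : Type} (S : Finset ι) (x : ι → E)
    (hx : ∀ i ∈ S, x i ∈ Submodule.span K (Set.range (eb t : (Fin s → Fin p) → E))) :
    ∏ i ∈ S, x i ∈ Submodule.span K (Set.range (eb t : (Fin s → Fin p) → E)) := by
  classical
  induction S using Finset.induction_on with
  | empty =>
    rw [Finset.prod_empty]
    have h1 : (1 : E) = eb t (fun _ : Fin s => (⟨0, Nat.pos_of_ne_zero (NeZero.ne p)⟩ : Fin p)) := by
      unfold eb T
      simp
    rw [h1]
    exact Submodule.subset_span ⟨_, rfl⟩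
  | insert i S hi ih =>
    rw [Finset.prod_insert hi]
    exact span_mul_mem t a ht _ _ (hx i (Finset.mem_insert_self i S))
      (ih fun j hj => hx j (Finset.mem_insert_of_mem hj))

theorem lowerK [NeZero p] (t : Fin s → E) (a : Fin s → K)
    (ht : ∀ i, t i ^ p = algebraMap K E (a i))
    (hli : LinearIndependent K (eb t : (Fin s → Fin p) → E)) (d : ℕ) (hd : 1 ≤ d) (r : ℕ)
    (hS : SumProd d r (form p a d)) : p ^ s ≤ r * Cd d := by
  classical
  have hp : 0 < p := Nat.pos_of_ne_zero (NeZero.ne p)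
  by_contra hcon
  have hcard : Fintype.card (Fin s → Fin p) = p ^ s := by simp
  obtain ⟨v, hv, hz⟩ := lower hd r (form p a d) (form_multilinear a d) hS (by
    rw [hcard]; omega)
  obtain ⟨lam, hlam⟩ := exists_lam t a ht hli
  let last : Fin d := ⟨d - 1, by omega⟩
  let x : Fin d → E := fun j => ∑ α, v j α • eb t α
  have hx0 : ∀ j ∈ Finset.univ.erase last, x j ≠ 0 := by
    intro j hj hc
    have h1 := Fintype.linearIndependent_iff.mp hli (v j) hc
    refine hv j ?_ (funext h1)
    have h2 : j.val ≠ d - 1 := fun hc => Finset.ne_of_mem_erase hj (Fin.ext hc)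
    have := j.2
    omega
  have hz0 : ∏ j ∈ Finset.univ.erase last, x j ≠ 0 := Finset.prod_ne_zero_iff.mpr hx0
  have hzs := prod_mem_span (p := p) t a ht (Finset.univ.erase last) x (by
    intro j _
    exact Submodule.sum_mem _ fun α _ =>
      Submodule.smul_mem _ _ (Submodule.subset_span ⟨α, rfl⟩))
  obtain ⟨c, hc⟩ := (Submodule.mem_span_range_iff_exists_fun K).mp hzs
  have hcα : ∃ α, c α ≠ 0 := by
    by_contra h0
    push Not at h0
    refine hz0 ?_
    rw [← hc]
    exact Finset.sum_eq_zero fun α _ => by rw [h0 α, zero_smul]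
  obtain ⟨α, hα⟩ := hcα
  let β : Fin s → Fin p := fun i => ⟨p - 1 - (α i).val, by omega⟩
  have h1 := hz (Pi.single β 1)
  rw [eval_form t a lam hlam] at h1
  rw [← Finset.mul_prod_erase Finset.univ _ (Finset.mem_univ last)] at h1
  have h2 : ∏ j ∈ Finset.univ.erase last,
      ∑ γ, (Function.update v ⟨d - 1, by omega⟩ (Pi.single β 1) : Fin d → (Fin s → Fin p) → K) j γ •
        eb t γ = ∏ j ∈ Finset.univ.erase last, x j := by
    refine Finset.prod_congr rfl fun j hj => ?_
    have h3 : j ≠ (⟨d - 1, by omega⟩ : Fin d) := Finset.ne_of_mem_erase hj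
    rw [Function.update_of_ne h3]
  have h4 : ∑ γ, (Function.update v ⟨d - 1, by omega⟩ (Pi.single β 1) :
      Fin d → (Fin s → Fin p) → K) last γ • eb t γ = eb t β := by
    have h5 : (Function.update v ⟨d - 1, by omega⟩ (Pi.single β 1) :
      Fin d → (Fin s → Fin p) → K) last = Pi.single β 1 := Function.update_self _ _ _
    rw [h5, Finset.sum_eq_single β]
    · rw [Pi.single_eq_same, one_smul]
    · intro γ _ hγ
      rw [Pi.single_eq_of_ne hγ, zero_smul]
    · intro hc
      exact absurd (Finset.mem_univ β) hc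
  rw [h2, h4, ← hc, Finset.mul_sum, map_sum] at h1
  have h6 : ∀ γ, lam (eb t β * c γ • eb t γ) = if γ = α then c γ else 0 := by
    intro γ
    rw [mul_smul_comm, map_smul]
    have h7 : eb t β * eb t γ = T t (fun i => (β i).val + (γ i).val) := (T_add t _ _).symm
    rw [h7, hlam, cf]
    have h8 : (∀ i, ((β i).val + (γ i).val) % p = p - 1) ↔ γ = α := by
      constructor
      · intro h
        funext i
        refine Fin.ext ?_
        have h9 := h i
        have h10 : (β i).val = p - 1 - (α i).val := rfl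
        rw [h10] at h9
        have h11 := (α i).2
        have h12 := (γ i).2
        by_cases hlt : p - 1 - (α i).val + (γ i).val < p
        · rw [Nat.mod_eq_of_lt hlt] at h9
          omega
        · rw [Nat.mod_eq_sub_mod (by omega), Nat.mod_eq_of_lt (by omega)] at h9
          omega
      · intro h i
        have h10 : (β i).val = p - 1 - (α i).val := rfl
        rw [h, h10]
        have h11 := (α i).2
        rw [Nat.mod_eq_of_lt (by omega)]
        omega
    by_cases hγ : γ = α
    · rw [if_pos (h8.mpr hγ), if_pos hγ]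
      have h13 : ∏ i, a i ^ (((β i).val + (γ i).val) / p) = 1 := by
        refine Finset.prod_eq_one fun i _ => ?_
        have h10 : (β i).val = p - 1 - (α i).val := rfl
        have h11 := (α i).2
        rw [hγ, h10, Nat.div_eq_of_lt (by omega), pow_zero]
      rw [h13, smul_eq_mul, mul_one]
    · rw [if_neg (fun h => hγ (h8.mp h)), if_neg hγ, smul_zero]
  simp only [h6] at h1
  rw [Finset.sum_ite_eq' Finset.univ α c, if_pos (Finset.mem_univ _)] at h1
  exact hα h1

end Run7.h288.SR
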