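import Pool.Agent.Run7.h288.SR.Count

/-!
# The field `F_p (X_0, X_1, …)` and its `p`-th roots
-/

set_option autoImplicit false
set_option linter.unusedSectionVars false

namespace Run7.h288.SR

open MvPolynomial

variable {p : ℕ} [Fact p.Prime]

/-- the exponent of `X ^ α` -/
noncomputable def ex {s : ℕ} (α : Fin s → Fin p) : ℕ →₀ ℕ :=
  ∑ i : Fin s, Finsupp.single i.val (α i).val

theorem ex_apply {s : ℕ} (α : Fin s → Fin p) (i : Fin s) : ex α i.val = (α i).val := by
  unfold ex
  rw [Finsupp.finsetSum_apply, Finset.sum_eq_single i]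
  · rw [Finsupp.single_eq_same]
  · intro j _ hj
    rw [Finsupp.single_apply, if_neg]
    intro hc
    exact hj (Fin.ext hc)
  · intro hc
    exact absurd (Finset.mem_univ i) hc

theorem prod_X {s : ℕ} (α : Fin s → Fin p) :
    ∏ i : Fin s, (X i.val : MvPolynomial ℕ (ZMod p)) ^ (α i).val = monomial (ex α) 1 := by
  unfold ex
  rw [monomial_sum_one]
  exact Finset.prod_congr rfl fun i _ => X_pow_eq_monomial

theorem indep_poly {s : ℕ} (c : (Fin s → Fin p) → MvPolynomial ℕ (ZMod p))
    (h : ∑ α, c α ^ p * ∏ i : Fin s, (X i.val : MvPolynomial ℕ (ZMod p)) ^ (α i).val = 0) :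
    ∀ β, c β = 0 := by
  classical
  have hp0 : p ≠ 0 := (Fact.out : p.Prime).ne_zero
  intro β
  ext m
  have h1 := congrArg (coeff (p • m + ex β)) h
  rw [coeff_sum, coeff_zero, Finset.sum_eq_single β] at h1
  · rw [prod_X, ← expand_zmod, mul_comm, coeff_monomial_mul', if_pos (le_add_of_nonneg_left
      (by positivity)), one_mul, add_tsub_cancel_right, coeff_expand_smul p hp0] at h1
    rw [h1, coeff_zero]
  · intro α _ hα
    rw [prod_X, ← expand_zmod, mul_comm, coeff_monomial_mul']
    by_cases hle : ex α ≤ p • m + ex β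
    · rw [if_pos hle, one_mul]
      have hne : ∃ i, α i ≠ β i := by
        by_contra hc
        push Not at hc
        exact hα (funext hc)
      obtain ⟨i, hi⟩ := hne
      refine coeff_expand_of_not_dvd (i := i.val) _ ?_
      rw [Finsupp.tsub_apply, Finsupp.add_apply, Finsupp.smul_apply, smul_eq_mul, ex_apply,
        ex_apply]
      have h2 := hle i.val
      rw [Finsupp.add_apply, Finsupp.smul_apply, smul_eq_mul, ex_apply, ex_apply] at h2
      rintro ⟨k, hk⟩
      have h3 : p * m i.val + (β i).val = p * k + (α i).val := by omega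
      have h4 : (β i).val = (α i).val := by
        have h5 := congrArg (fun z => z % p) h3
        simp only [Nat.mul_add_mod] at h5
        rwa [Nat.mod_eq_of_lt (β i).2, Nat.mod_eq_of_lt (α i).2] at h5
      exact hi (Fin.ext h4.symm)
    · rw [if_neg hle]
  · intro hc
    exact absurd (Finset.mem_univ β) hc

/-- the field `F_p (X_0, X_1, …)` -/
abbrev KK (p : ℕ) [Fact p.Prime] : Type := FractionRing (MvPolynomial ℕ (ZMod p))

/-- the variable `X_i` as an element of the field -/
noncomputable def av (p : ℕ) [Fact p.Prime] (s : ℕ) (i : Fin s) : KK p :=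
  algebraMap (MvPolynomial ℕ (ZMod p)) (KK p) (X i.val)

theorem indep_field {s : ℕ} (c : (Fin s → Fin p) → KK p)
    (h : ∑ α, c α ^ p * ∏ i : Fin s, av p s i ^ (α i).val = 0) : ∀ β, c β = 0 := by
  classical
  obtain ⟨b, hb⟩ := IsLocalization.exist_integer_multiples
    (nonZeroDivisors (MvPolynomial ℕ (ZMod p))) Finset.univ c
  choose C hC using fun α => hb α (Finset.mem_univ α)
  let f : MvPolynomial ℕ (ZMod p) →+* KK p := algebraMap (MvPolynomial ℕ (ZMod p)) (KK p)
  have hinj : Function.Injective f := IsFractionRing.injective (MvPolynomial ℕ (ZMod p)) (KK p)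
  have hb0 : f (b : MvPolynomial ℕ (ZMod p)) ≠ 0 := by
    intro h0
    have h1 : (b : MvPolynomial ℕ (ZMod p)) = 0 := hinj (by rw [h0, map_zero])
    exact nonZeroDivisors.ne_zero b.2 h1
  have hC' : ∀ α, f (C α) = f (b : MvPolynomial ℕ (ZMod p)) * c α := by
    intro α
    refine (hC α).trans ?_
    exact Algebra.smul_def (b : MvPolynomial ℕ (ZMod p)) (c α)
  have h1 : ∑ α, C α ^ p * ∏ i : Fin s, (X i.val : MvPolynomial ℕ (ZMod p)) ^ (α i).val = 0 := by
    refine hinj ?_
    rw [map_sum, map_zero]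
    have h2 : ∀ α : Fin s → Fin p, f (C α ^ p *
        ∏ i : Fin s, (X i.val : MvPolynomial ℕ (ZMod p)) ^ (α i).val) =
        f (b : MvPolynomial ℕ (ZMod p)) ^ p * (c α ^ p * ∏ i : Fin s, av p s i ^ (α i).val) := by
      intro α
      rw [map_mul, map_pow, hC', mul_pow, map_prod, mul_assoc]
      congr 2
      exact Finset.prod_congr rfl fun i _ => map_pow _ _ _
    rw [Finset.sum_congr rfl fun α _ => h2 α, ← Finset.mul_sum, h, mul_zero]
  intro β
  have h3 := indep_poly C h1 β
  have h4 := hC' β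
  rw [h3, map_zero] at h4
  exact (mul_eq_zero.mp h4.symm).resolve_left hb0

theorem indep_closure {s : ℕ} (t : Fin s → AlgebraicClosure (KK p))
    (ht : ∀ i, t i ^ p = algebraMap (KK p) (AlgebraicClosure (KK p)) (av p s i)) :
    LinearIndependent (KK p) (eb t : (Fin s → Fin p) → AlgebraicClosure (KK p)) := by
  classical
  rw [Fintype.linearIndependent_iff]
  intro c hc
  refine indep_field c ?_
  refine (algebraMap (KK p) (AlgebraicClosure (KK p))).injective ?_
  rw [map_zero, map_sum]
  have h1 : (∑ α, c α • eb t α) ^ p = 0 := by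
    rw [hc, zero_pow (Fact.out : p.Prime).ne_zero]
  rw [sum_pow_char p] at h1
  rw [← h1]
  refine Finset.sum_congr rfl fun α _ => ?_
  rw [Algebra.smul_def, mul_pow, map_mul, map_pow, eb, T, ← Finset.prod_pow, map_prod]
  congr 1
  refine Finset.prod_congr rfl fun i _ => ?_
  rw [map_pow, ← ht i, ← pow_mul, ← pow_mul, mul_comm]

/-- **Main theorem.**  The Schmidt rank over `K = F_p (X_0, X_1, …)` is not bounded by a multiple
of the Schmidt rank over the algebraic closure of `K`, in any degree `d ≥ 3`. -/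
theorem main (p : ℕ) [Fact p.Prime] (d : ℕ) (hd : 3 ≤ d) (κ : ℝ) :
    ∃ (ι : Type) (_ : Fintype ι) (P : MvPolynomial (Fin d × ι) (KK p)) (r : ℕ),
      (∀ m ∈ P.support, ∀ j : Fin d, ∑ b : ι, m (j, b) = 1) ∧
      SumProd d r (map (algebraMap (KK p) (AlgebraicClosure (KK p))) P) ∧
      ∀ r', SumProd d r' P → κ * r < r' := by
  have hp : 2 ≤ p := (Fact.out : p.Prime).two_le
  have : NeZero p := ⟨by omega⟩
  obtain ⟨s, hs⟩ := exists_nat_gt (|κ| * (9 * d * (Cd d : ℝ)))
  have hs0 : 0 < s := by
    rcases Nat.eq_zero_or_pos s with h | h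
    · rw [h, Nat.cast_zero] at hs
      have : 0 ≤ |κ| * (9 * d * (Cd d : ℝ)) := by positivity
      linarith
    · exact h
  choose t ht using fun i : Fin s => IsAlgClosed.exists_pow_nat_eq
    (algebraMap (KK p) (AlgebraicClosure (KK p)) (av p s i)) (show 0 < p by omega)
  refine ⟨Fin s → Fin p, inferInstance, form p (av p s) d, (TT p s d).card,
    form_multilinear _ d, upper t (av p s) ht d (by omega), ?_⟩
  intro r' hr'
  have h1 := lowerK t (av p s) ht (indep_closure t ht) d (by omega) r' hr'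
  have h2 := card_TT hp s d hd
  have h3 : (p : ℝ) ^ s ≤ r' * Cd d := by exact_mod_cast h1
  have h4 : ((TT p s d).card : ℝ) * s ≤ 9 * d * (p : ℝ) ^ s := by exact_mod_cast h2
  have hps : (0 : ℝ) < (p : ℝ) ^ s := by positivity
  have hsr : (0 : ℝ) < s := by exact_mod_cast hs0
  have hCd : (0 : ℝ) < Cd d := by
    rcases Nat.eq_zero_or_pos (Cd d) with h | h
    · rw [h] at h3
      simp only [Nat.cast_zero, mul_zero] at h3
      linarith
    · exact_mod_cast h
  have h5 : κ * (TT p s d).card ≤ |κ| * (TT p s d).card :=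
    mul_le_mul_of_nonneg_right (le_abs_self κ) (by positivity)
  refine lt_of_le_of_lt h5 ?_
  by_contra hcon
  push Not at hcon
  have h6 : (p : ℝ) ^ s * s ≤ |κ| * (9 * d * (p : ℝ) ^ s) * Cd d := by
    calc (p : ℝ) ^ s * s ≤ (r' * Cd d) * s := by gcongr
      _ ≤ (|κ| * (TT p s d).card * Cd d) * s := by gcongr
      _ = |κ| * (((TT p s d).card : ℝ) * s) * Cd d := by ring
      _ ≤ |κ| * (9 * d * (p : ℝ) ^ s) * Cd d := by gcongr
  have h7 : (s : ℝ) * (p : ℝ) ^ s ≤ (|κ| * (9 * d * (Cd d : ℝ))) * (p : ℝ) ^ s := by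
    calc (s : ℝ) * (p : ℝ) ^ s = (p : ℝ) ^ s * s := by ring
      _ ≤ _ := h6
      _ = _ := by ring
  have h8 := le_of_mul_le_mul_right h7 hps
  linarith

end Run7.h288.SR
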