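import Mathlib

/-!
# Lower bound for the Schmidt rank of a multilinear polynomial

If a multilinear polynomial `P` in `d` blocks of variables is a sum of `r` products of polynomials
of degree less than `d`, and the blocks have more than `C_d r` variables, then there are vectors
`v_0, …, v_{d-2}`, all nonzero, such that `P (v_0, …, v_{d-2}, y) = 0` for all `y`.
-/

set_option autoImplicit false
set_option linter.unusedSectionVars false

namespace Run7.h288.SR

open MvPolynomial

variable {K : Type} [Field K] {A : Type} [Fintype A] [DecidableEq A] {d : ℕ}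

/-- substitution `X (j, a) ↦ v j a * T j` -/
noncomputable def phi (v : Fin d → A → K) :
    MvPolynomial (Fin d × A) K →+* MvPolynomial (Fin d) K :=
  eval₂Hom C (fun x => C (v x.1 x.2) * X x.1)

/-- the value of a monomial -/
noncomputable def mval (v : Fin d → A → K) (m : Fin d × A →₀ ℕ) : K :=
  m.prod fun x e => v x.1 x.2 ^ e

theorem phi_monomial (v : Fin d → A → K) (m : Fin d × A →₀ ℕ) (c : K) :
    phi v (monomial m c) = monomial (m.mapDomain Prod.fst) (c * mval v m) := by
  unfold phi mval
  rw [eval₂Hom_monomial]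
  have h1 : (m.prod fun x e => (C (v x.1 x.2) * X x.1 : MvPolynomial (Fin d) K) ^ e) =
      C (m.prod fun x e => v x.1 x.2 ^ e) *
        rename Prod.fst (monomial m (1 : K)) := by
    rw [monomial_eq, C_1, one_mul, Finsupp.prod, Finsupp.prod, Finsupp.prod, map_prod, map_prod,
      ← Finset.prod_mul_distrib]
    refine Finset.prod_congr rfl fun x _ => ?_
    rw [mul_pow, map_pow, map_pow, rename_X]
  rw [h1, rename_monomial, ← mul_assoc, ← C_mul, C_mul_monomial, mul_one]

theorem coeff_phi (v : Fin d → A → K) (Q : MvPolynomial (Fin d × A) K) (a : Fin d →₀ ℕ) :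
    coeff a (phi v Q) =
      ∑ m ∈ Q.support, if m.mapDomain Prod.fst = a then coeff m Q * mval v m else 0 := by
  conv_lhs => rw [Q.as_sum]
  rw [map_sum, coeff_sum]
  refine Finset.sum_congr rfl fun m _ => ?_
  rw [phi_monomial, coeff_monomial]

/-- `h` is linear in the blocks `j` with `J j` and does not depend on the others -/
def MDf (J : Fin d → Prop) (h : (Fin d → A → K) → K) : Prop :=
  (∀ j, J j → ∀ v, IsLinearMap K (fun w => h (Function.update v j w))) ∧
  (∀ j, ¬ J j → ∀ v w, h (Function.update v j w) = h v)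

theorem mapDomain_fst_apply (m : Fin d × A →₀ ℕ) (j : Fin d) :
    m.mapDomain Prod.fst j = ∑ x ∈ m.support, if x.1 = j then m x else 0 := by
  rw [Finsupp.mapDomain, Finsupp.sum, Finsupp.finsetSum_apply]
  refine Finset.sum_congr rfl fun x _ => ?_
  rw [Finsupp.single_apply]

theorem mval_update_of_zero (m : Fin d × A →₀ ℕ) (j : Fin d)
    (h : ∀ x ∈ m.support, x.1 ≠ j) (v : Fin d → A → K) (w : A → K) :
    mval (Function.update v j w) m = mval v m := by
  unfold mval
  refine Finsupp.prod_congr fun x hx => ?_
  rw [Function.update_of_ne (h x hx)]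

theorem mval_linear (m : Fin d × A →₀ ℕ) (j : Fin d) (h : m.mapDomain Prod.fst j = 1)
    (v : Fin d → A → K) :
    ∃ (a₀ : A) (c : K), ∀ w : A → K, mval (Function.update v j w) m = w a₀ * c := by
  rw [mapDomain_fst_apply] at h
  obtain ⟨x₀, hx₀, hne⟩ := Finset.exists_ne_zero_of_sum_ne_zero
    (show ∑ x ∈ m.support, (if x.1 = j then m x else 0) ≠ 0 by rw [h]; exact one_ne_zero)
  have hj : x₀.1 = j := by
    by_contra hc
    exact hne (if_neg hc)
  rw [← Finset.add_sum_erase _ _ hx₀, if_pos hj] at h
  have hm0 : m x₀ ≠ 0 := by rwa [if_pos hj] at hne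
  have hm1 : m x₀ = 1 := by omega
  have hrest : ∑ x ∈ m.support.erase x₀, (if x.1 = j then m x else 0) = 0 := by omega
  rw [Finset.sum_eq_zero_iff] at hrest
  refine ⟨x₀.2, mval v (m.erase x₀), fun w => ?_⟩
  unfold mval
  rw [← Finsupp.mul_prod_erase m x₀ (fun x e => (Function.update v j w) x.1 x.2 ^ e) hx₀]
  rw [hm1, pow_one, hj, Function.update_self]
  congr 1
  refine Finsupp.prod_congr fun x hx => ?_
  rw [Finsupp.support_erase] at hx
  have h2 := hrest x hx
  have h3 : x.1 ≠ j := by
    intro hc
    rw [if_pos hc] at h2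
    exact (Finsupp.mem_support_iff.mp (Finset.mem_of_mem_erase hx)) h2
  rw [Function.update_of_ne h3]

theorem MDf_coeff (Q : MvPolynomial (Fin d × A) K) (a : Fin d →₀ ℕ) (ha : ∀ j, a j ≤ 1) :
    MDf (fun j => a j = 1) (fun v : Fin d → A → K => coeff a (phi v Q)) := by
  constructor
  · intro j hj v
    have key : ∀ m : Fin d × A →₀ ℕ, ∃ l : (A → K) →ₗ[K] K, ∀ w : A → K,
        (if m.mapDomain Prod.fst = a then coeff m Q * mval (Function.update v j w) m else 0) =
          l w := by
      intro m
      by_cases hm : m.mapDomain Prod.fst = a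
      · obtain ⟨a₀, c, hc⟩ := mval_linear m j (by rw [hm]; exact hj) v
        refine ⟨(coeff m Q * c) • LinearMap.proj a₀, fun w => ?_⟩
        rw [if_pos hm, hc, LinearMap.smul_apply, LinearMap.proj_apply, smul_eq_mul]
        ring
      · exact ⟨0, fun w => by rw [if_neg hm]; rfl⟩
    choose l hl using key
    have hEq : (fun w => coeff a (phi (Function.update v j w) Q)) =
        fun w => (∑ m ∈ Q.support, l m) w := by
      funext w
      rw [coeff_phi, LinearMap.sum_apply]
      exact Finset.sum_congr rfl fun m _ => hl m w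
    show IsLinearMap K (fun w => coeff a (phi (Function.update v j w) Q))
    rw [hEq]
    exact (∑ m ∈ Q.support, l m).isLinear
  · intro j hj v w
    show coeff a (phi (Function.update v j w) Q) = coeff a (phi v Q)
    rw [coeff_phi, coeff_phi]
    refine Finset.sum_congr rfl fun m _ => ?_
    by_cases hm : m.mapDomain Prod.fst = a
    · rw [if_pos hm, if_pos hm, mval_update_of_zero]
      intro x hx hxj
      have h0 : m.mapDomain Prod.fst j = 0 := by
        rw [hm]
        have := ha j
        have h2 : a j ≠ 1 := hj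
        omega
      rw [mapDomain_fst_apply, Finset.sum_eq_zero_iff] at h0
      have h1 := h0 x hx
      rw [if_pos hxj] at h1
      exact (Finsupp.mem_support_iff.mp hx) h1
    · rw [if_neg hm, if_neg hm]

/-- killing fewer conditions than the dimension, one block after the other -/
theorem kill {κ : Type} [Fintype κ] (J : κ → Fin d → Prop)
    (h : κ → (Fin d → A → K) → K) (hMD : ∀ k, MDf (J k) (h k)) (hJ : ∀ k, ∃ j, J k j)
    (hcard : Fintype.card κ < Fintype.card A) (n : ℕ) (hn : n ≤ d) :
    ∃ v : Fin d → A → K, (∀ j : Fin d, j.val < n → v j ≠ 0) ∧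
      ∀ k, (∀ j, J k j → j.val < n) → h k v = 0 := by
  classical
  induction n with
  | zero =>
    refine ⟨fun _ _ => 0, fun j hj => absurd hj (Nat.not_lt_zero _), fun k hk => ?_⟩
    obtain ⟨j, hj⟩ := hJ k
    exact absurd (hk j hj) (Nat.not_lt_zero _)
  | succ n ih =>
    obtain ⟨v, hv, hz⟩ := ih (by omega)
    let j₀ : Fin d := ⟨n, by omega⟩
    have hlin : ∀ k, ∃ l : (A → K) →ₗ[K] K, J k j₀ → ∀ w, h k (Function.update v j₀ w) = l w := by
      intro k
      by_cases hk : J k j₀
      · refine ⟨((hMD k).1 j₀ hk v).mk' _, fun _ w => rfl⟩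
      · exact ⟨0, fun hk' => absurd hk' hk⟩
    choose l hl using hlin
    have hker := LinearMap.ker_ne_bot_of_finrank_lt (f := LinearMap.pi l) (by
      rw [Module.finrank_fintype_fun_eq_card, Module.finrank_fintype_fun_eq_card]
      exact hcard)
    obtain ⟨w, hw, hw0⟩ := Submodule.exists_mem_ne_zero_of_ne_bot hker
    refine ⟨Function.update v j₀ w, ?_, ?_⟩
    · intro j hj
      by_cases hjj : j = j₀
      · rw [hjj, Function.update_self]
        exact hw0
      · rw [Function.update_of_ne hjj]
        refine hv j ?_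
        have : j.val ≠ n := fun hc => hjj (Fin.ext hc)
        omega
    · intro k hk
      by_cases hkj : J k j₀
      · rw [hl k hkj w]
        have := congrFun (LinearMap.mem_ker.mp hw) k
        rwa [LinearMap.pi_apply] at this
      · rw [(hMD k).2 j₀ hkj]
        refine hz k fun j hj => ?_
        have h1 := hk j hj
        have : j.val ≠ n := fun hc => hkj (by
          have : j = j₀ := Fin.ext hc
          rwa [← this])
        omega

/-- the exponent `(1, …, 1)` -/
noncomputable def one (d : ℕ) : Fin d →₀ ℕ := Finsupp.equivFunOnFinite.symm fun _ => 1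

theorem one_apply (j : Fin d) : one d j = 1 := rfl

theorem coeff_one_of_degree (v : Fin d → A → K) (Q : MvPolynomial (Fin d × A) K)
    (h : Q.totalDegree < d) : coeff (one d) (phi v Q) = 0 := by
  rw [coeff_phi]
  refine Finset.sum_eq_zero fun m hm => ?_
  rw [if_neg]
  intro hc
  have h1 := le_totalDegree hm
  have h2 : (m.sum fun _ e => e) = d := by
    have h3 : ((m.mapDomain Prod.fst).sum fun _ e => e) = m.sum fun _ e => e :=
      Finsupp.sum_mapDomain_index (fun _ => rfl) (fun _ _ _ => rfl)
    rw [← h3, hc, Finsupp.sum_fintype _ _ (fun _ => rfl)]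
    simp [one_apply]
  omega

theorem coeff_one_eval (v : Fin d → A → K) (P : MvPolynomial (Fin d × A) K)
    (hP : ∀ m ∈ P.support, ∀ j : Fin d, ∑ a : A, m (j, a) = 1) :
    coeff (one d) (phi v P) = eval (fun x => v x.1 x.2) P := by
  rw [coeff_phi, eval_eq]
  refine Finset.sum_congr rfl fun m hm => ?_
  rw [if_pos, mval, Finsupp.prod]
  ext j
  rw [mapDomain_fst_apply, one_apply, ← hP m hm j]
  have h1 : ∑ x ∈ m.support, (if x.1 = j then m x else 0) =
      ∑ x : Fin d × A, (if x.1 = j then m x else 0) := by
    refine Finset.sum_subset (Finset.subset_univ _) fun x _ hx => ?_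
    rw [Finsupp.notMem_support_iff.mp hx, ite_self]
  rw [h1, Fintype.sum_prod_type, Finset.sum_eq_single j]
  · exact Finset.sum_congr rfl fun a _ => if_pos rfl
  · intro b _ hb
    exact Finset.sum_eq_zero fun a _ => if_neg hb
  · intro hc
    exact absurd (Finset.mem_univ j) hc

/-- `P` is a sum of `r` products of polynomials of degree less than `d` -/
def SumProd {R σ : Type} [CommRing R] (d r : ℕ) (P : MvPolynomial σ R) : Prop :=
  ∃ Q R' : Fin r → MvPolynomial σ R,
    (∀ i, (Q i).totalDegree < d ∧ (R' i).totalDegree < d) ∧ P = ∑ i, Q i * R' i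

/-- a constant which depends only on `d` -/
noncomputable def Cd (d : ℕ) : ℕ := (Finset.HasAntidiagonal.antidiagonal (one d)).card

theorem lower (hd : 1 ≤ d) (r : ℕ) (P : MvPolynomial (Fin d × A) K)
    (hP : ∀ m ∈ P.support, ∀ j : Fin d, ∑ a : A, m (j, a) = 1)
    (hS : SumProd d r P) (hr : r * Cd d < Fintype.card A) :
    ∃ v : Fin d → A → K, (∀ j : Fin d, j.val < d - 1 → v j ≠ 0) ∧
      ∀ y : A → K, eval (fun x => (Function.update v ⟨d - 1, by omega⟩ y) x.1 x.2) P = 0 := by
  classical
  obtain ⟨Q, R, hdeg, hsum⟩ := hS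
  let last : Fin d := ⟨d - 1, by omega⟩
  let κ : Type := Fin r × {x // x ∈ (Finset.HasAntidiagonal.antidiagonal (one d))}
  -- the conditions
  let ok : κ → Prop := fun k => k.2.1.1 ≠ 0 ∧ k.2.1.2 ≠ 0
  have hle : ∀ k : κ, ∀ j, k.2.1.1 j + k.2.1.2 j = 1 := by
    intro k j
    have := Finset.HasAntidiagonal.mem_antidiagonal.mp k.2.2
    have h2 := DFunLike.congr_fun this j
    rw [Finsupp.add_apply, one_apply] at h2
    exact h2
  let κ' : Type := {k : κ // ok k}
  let J : κ' → Fin d → Prop := fun k j =>
    if k.1.2.1.1 last = 0 then k.1.2.1.1 j = 1 else k.1.2.1.2 j = 1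
  let h : κ' → (Fin d → A → K) → K := fun k v =>
    if k.1.2.1.1 last = 0 then coeff k.1.2.1.1 (phi v (Q k.1.1))
    else coeff k.1.2.1.2 (phi v (R k.1.1))
  have hMD : ∀ k, MDf (J k) (h k) := by
    intro k
    by_cases hk : k.1.2.1.1 last = 0
    · have e1 : J k = fun j => k.1.2.1.1 j = 1 := by
        funext j
        show (if k.1.2.1.1 last = 0 then k.1.2.1.1 j = 1 else k.1.2.1.2 j = 1) = _
        rw [if_pos hk]
      have e2 : h k = fun v => coeff k.1.2.1.1 (phi v (Q k.1.1)) := by
        funext v
        exact if_pos hk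
      rw [e1, e2]
      exact MDf_coeff _ _ fun j => by have := hle k.1 j; omega
    · have e1 : J k = fun j => k.1.2.1.2 j = 1 := by
        funext j
        show (if k.1.2.1.1 last = 0 then k.1.2.1.1 j = 1 else k.1.2.1.2 j = 1) = _
        rw [if_neg hk]
      have e2 : h k = fun v => coeff k.1.2.1.2 (phi v (R k.1.1)) := by
        funext v
        exact if_neg hk
      rw [e1, e2]
      exact MDf_coeff _ _ fun j => by have := hle k.1 j; omega
  have hex : ∀ a : Fin d →₀ ℕ, a ≠ 0 → ∃ j, a j ≠ 0 := by
    intro a ha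
    by_contra hc
    push Not at hc
    exact ha (Finsupp.ext hc)
  have hJ : ∀ k, ∃ j, J k j := by
    intro k
    by_cases hk : k.1.2.1.1 last = 0
    · obtain ⟨j, hj⟩ := hex _ k.2.1
      refine ⟨j, ?_⟩
      show (if k.1.2.1.1 last = 0 then k.1.2.1.1 j = 1 else k.1.2.1.2 j = 1)
      rw [if_pos hk]
      have := hle k.1 j
      omega
    · obtain ⟨j, hj⟩ := hex _ k.2.2
      refine ⟨j, ?_⟩
      show (if k.1.2.1.1 last = 0 then k.1.2.1.1 j = 1 else k.1.2.1.2 j = 1)
      rw [if_neg hk]
      have := hle k.1 j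
      omega
  have hcard : Fintype.card κ' < Fintype.card A := by
    refine lt_of_le_of_lt (Fintype.card_subtype_le _) ?_
    rw [Fintype.card_prod, Fintype.card_fin, Fintype.card_coe]
    exact hr
  obtain ⟨v, hv, hz⟩ := kill J h hMD hJ hcard (d - 1) (by omega)
  refine ⟨v, hv, fun y => ?_⟩
  -- the conditions do not involve the last block
  have hJl : ∀ k : κ', ¬ J k last := by
    intro k hk
    by_cases hk0 : k.1.2.1.1 last = 0
    · have : k.1.2.1.1 last = 1 := by
        have hk' : (if k.1.2.1.1 last = 0 then k.1.2.1.1 last = 1 else k.1.2.1.2 last = 1) := hk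
        rwa [if_pos hk0] at hk'
      omega
    · have : k.1.2.1.2 last = 1 := by
        have hk' : (if k.1.2.1.1 last = 0 then k.1.2.1.1 last = 1 else k.1.2.1.2 last = 1) := hk
        rwa [if_neg hk0] at hk'
      have := hle k.1 last
      omega
  have hzy : ∀ k : κ', h k (Function.update v last y) = 0 := by
    intro k
    rw [(hMD k).2 last (hJl k)]
    refine hz k fun j hj => ?_
    have h1 : j ≠ last := fun hc => hJl k (hc ▸ hj)
    have h2 : j.val ≠ d - 1 := fun hc => h1 (Fin.ext hc)
    have := j.2
    omega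
  have hP' := hsum
  rw [← coeff_one_eval _ P hP, hsum, map_sum, coeff_sum]
  refine Finset.sum_eq_zero fun i _ => ?_
  rw [map_mul, coeff_mul]
  refine Finset.sum_eq_zero fun x hx => ?_
  by_cases h1 : x.1 = 0
  · have h2 : x.2 = one d := by
      have := Finset.HasAntidiagonal.mem_antidiagonal.mp hx
      rwa [h1, zero_add] at this
    rw [h2, coeff_one_of_degree _ _ (hdeg i).2, mul_zero]
  · by_cases h2 : x.2 = 0
    · have h3 : x.1 = one d := by
        have := Finset.HasAntidiagonal.mem_antidiagonal.mp hx
        rwa [h2, add_zero] at this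
      rw [h3, coeff_one_of_degree _ _ (hdeg i).1, zero_mul]
    · have h3 := hzy ⟨(i, ⟨x, hx⟩), h1, h2⟩
      by_cases hk : x.1 last = 0
      · have h4 : coeff x.1 (phi (Function.update v last y) (Q i)) = 0 := by
          have h5 : (if x.1 last = 0 then coeff x.1 (phi (Function.update v last y) (Q i))
            else coeff x.2 (phi (Function.update v last y) (R i))) = 0 := h3
          rwa [if_pos hk] at h5
        have h6 : coeff x.1 (phi (Function.update v ⟨d - 1, by omega⟩ y) (Q i)) = 0 := h4
        rw [h6, zero_mul]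
      · have h4 : coeff x.2 (phi (Function.update v last y) (R i)) = 0 := by
          have h5 : (if x.1 last = 0 then coeff x.1 (phi (Function.update v last y) (Q i))
            else coeff x.2 (phi (Function.update v last y) (R i))) = 0 := h3
          rwa [if_neg hk] at h5
        have h6 : coeff x.2 (phi (Function.update v ⟨d - 1, by omega⟩ y) (R i)) = 0 := h4
        rw [h6, mul_zero]

end Run7.h288.SR
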