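import Pool.Agent.Run7.h288.SR.Fld

/-!
# The slice rank of the multiplication form over an algebraically closed field
-/

set_option autoImplicit false
set_option linter.unusedSectionVars false

namespace Run7.h288.SR

open MvPolynomial

variable {K E : Type} [Field K] [Field E] [Algebra K E] {p s : ℕ} [Fact p.Prime]

theorem choose_cast [CharP E p] (n : ℕ) :
    ((n.choose (p - 1) : ℕ) : E) = if n % p = p - 1 then 1 else 0 := by
  have hp : 0 < p := (Fact.out : p.Prime).pos
  have h1 := Choose.choose_modEq_choose_mod_mul_choose_div_nat (n := n) (k := p - 1) (p := p)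
  rw [Nat.mod_eq_of_lt (show p - 1 < p by omega), Nat.div_eq_of_lt (show p - 1 < p by omega),
    Nat.choose_zero_right, mul_one] at h1
  rw [(CharP.natCast_eq_natCast E p).mpr h1]
  have hlt := Nat.mod_lt n hp
  by_cases hn : n % p = p - 1
  · rw [if_pos hn, hn, Nat.choose_self, Nat.cast_one]
  · rw [if_neg hn, Nat.choose_eq_zero_of_lt (by omega), Nat.cast_zero]

theorem cf_map [CharP E p] (t : Fin s → E) (a : Fin s → K)
    (ht : ∀ i, t i ^ p = algebraMap K E (a i)) (n : Fin s → ℕ) :
    algebraMap K E (cf p a n) =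
      ∏ i, (t i ^ (n i - (p - 1)) * (((n i).choose (p - 1) : ℕ) : E)) := by
  have hp : 0 < p := (Fact.out : p.Prime).pos
  unfold cf
  by_cases hn : ∀ i, n i % p = p - 1
  · rw [if_pos hn, map_prod]
    refine Finset.prod_congr rfl fun i _ => ?_
    rw [choose_cast, if_pos (hn i), mul_one, map_pow, ← ht i, ← pow_mul]
    congr 1
    have := Nat.div_add_mod (n i) p
    have h2 := hn i
    omega
  · rw [if_neg hn, map_zero]
    push Not at hn
    obtain ⟨i, hi⟩ := hn
    refine (Finset.prod_eq_zero (Finset.mem_univ i) ?_).symm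
    rw [choose_cast, if_neg hi, mul_zero]

/-- Vandermonde's identity for several factors -/
theorem vander {d : ℕ} (x : E) (m : Fin d → ℕ) (k : ℕ) :
    x ^ ((∑ j, m j) - k) * (((∑ j, m j).choose k : ℕ) : E) =
      ∑ l ∈ Finset.finsuppAntidiag (Finset.univ : Finset (Fin d)) k,
        ∏ j, (x ^ (m j - l j) * (((m j).choose (l j) : ℕ) : E)) := by
  classical
  have h1 := PowerSeries.coeff_prod
    (fun j : Fin d => (((Polynomial.X + Polynomial.C x) ^ m j : Polynomial E) : PowerSeries E)) k
    Finset.univ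
  have h2 : ∏ j : Fin d, (((Polynomial.X + Polynomial.C x) ^ m j : Polynomial E) : PowerSeries E) =
      (((Polynomial.X + Polynomial.C x) ^ (∑ j, m j) : Polynomial E) : PowerSeries E) := by
    rw [← Finset.prod_pow_eq_pow_sum]
    have h3 := map_prod (Polynomial.coeToPowerSeries.ringHom (R := E))
      (fun j : Fin d => (Polynomial.X + Polynomial.C x) ^ m j) Finset.univ
    simp only [Polynomial.coeToPowerSeries.ringHom_apply] at h3
    exact h3.symm
  rw [h2, Polynomial.coeff_coe, Polynomial.coeff_X_add_C_pow] at h1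
  rw [h1]
  refine Finset.sum_congr rfl fun l _ => Finset.prod_congr rfl fun j _ => ?_
  rw [Polynomial.coeff_coe, Polynomial.coeff_X_add_C_pow]

/-- the new linear forms -/
noncomputable def lf (t : Fin s → E) {d : ℕ} (j : Fin d) (β : Fin s → ℕ) :
    MvPolynomial (Fin d × (Fin s → Fin p)) E :=
  ∑ α : Fin s → Fin p,
    C (∏ i, (t i ^ ((α i).val - β i) * ((((α i).val).choose (β i) : ℕ) : E))) * X (j, α)

/-- the index set of the expansion -/
noncomputable def BB (p s d : ℕ) : Finset (Fin s → (Fin d →₀ ℕ)) :=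
  Fintype.piFinset fun _ : Fin s =>
    Finset.finsuppAntidiag (Finset.univ : Finset (Fin d)) (p - 1)

theorem map_form [CharP E p] (t : Fin s → E) (a : Fin s → K)
    (ht : ∀ i, t i ^ p = algebraMap K E (a i)) (d : ℕ) :
    map (algebraMap K E) (form p a d) =
      ∑ B ∈ BB p s d, ∏ j : Fin d, lf (p := p) t j (fun i => B i j) := by
  classical
  unfold form lf
  rw [map_sum]
  have h1 : ∀ α : Fin d → (Fin s → Fin p),
      map (algebraMap K E) (C (cf p a fun i => ∑ j, (α j i).val) * ∏ j, X (j, α j)) =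
      ∑ B ∈ BB p s d, ∏ j : Fin d,
        (C (∏ i, (t i ^ ((α j i).val - B i j) * ((((α j i).val).choose (B i j) : ℕ) : E))) *
          X (j, α j)) := by
    intro α
    rw [map_mul, map_C, map_prod, cf_map t a ht]
    have h2 : ∏ i, (t i ^ ((∑ j, (α j i).val) - (p - 1)) *
        (((∑ j, (α j i).val).choose (p - 1) : ℕ) : E)) =
        ∑ B ∈ BB p s d, ∏ i, ∏ j,
          (t i ^ ((α j i).val - B i j) * ((((α j i).val).choose (B i j) : ℕ) : E)) := by
      rw [Finset.prod_congr rfl fun i _ => vander (t i) (fun j => (α j i).val) (p - 1)]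
      rw [Finset.prod_univ_sum]
      rfl
    rw [h2, map_sum, Finset.sum_mul]
    refine Finset.sum_congr rfl fun B _ => ?_
    rw [Finset.prod_comm, map_prod, Finset.prod_mul_distrib]
    congr 1
    exact Finset.prod_congr rfl fun j _ => map_X _ _
  rw [Finset.sum_congr rfl fun α _ => h1 α, Finset.sum_comm]
  refine Finset.sum_congr rfl fun B _ => ?_
  rw [Finset.prod_univ_sum, Fintype.piFinset_univ]

theorem lf_degree (t : Fin s → E) {d : ℕ} (j : Fin d) (β : Fin s → ℕ) :
    (lf (p := p) t j β).totalDegree ≤ 1 := by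
  unfold lf
  refine totalDegree_finsetSum_le fun α _ => ?_
  refine (totalDegree_mul _ _).trans ?_
  rw [totalDegree_C, totalDegree_X]

/-- the set of the slices -/
def TT (p s d : ℕ) : Finset (Fin d × (Fin s → Fin p)) :=
  Finset.univ.filter fun x => d * ∑ i, (x.2 i).val ≤ (p - 1) * s

theorem upper [CharP E p] (t : Fin s → E) (a : Fin s → K)
    (ht : ∀ i, t i ^ p = algebraMap K E (a i)) (d : ℕ) (hd : 2 ≤ d) :
    SumProd d (TT p s d).card (map (algebraMap K E) (form p a d)) := by
  classical
  have hp : 0 < p := (Fact.out : p.Prime).pos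
  have hB : ∀ B ∈ BB p s d, ∀ i, ∑ j, B i j = p - 1 := by
    intro B hB i
    have h1 := (Fintype.mem_piFinset.mp hB) i
    exact (Finset.mem_finsuppAntidiag.mp h1).1
  -- a short slot
  have hex : ∀ B ∈ BB p s d, ∃ j : Fin d, d * ∑ i, B i j ≤ (p - 1) * s := by
    intro B hBB
    by_contra hc
    push Not at hc
    have h1 : ∑ j : Fin d, (p - 1) * s < ∑ j : Fin d, d * ∑ i, B i j := by
      refine Finset.sum_lt_sum_of_nonempty ⟨⟨0, by omega⟩, Finset.mem_univ _⟩ fun j _ => hc j
    have h2 : ∑ j : Fin d, d * ∑ i, B i j = d * ((p - 1) * s) := by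
      rw [← Finset.mul_sum, Finset.sum_comm, Finset.sum_congr rfl fun i _ => hB B hBB i,
        Finset.sum_const, Finset.card_univ, Fintype.card_fin, smul_eq_mul, mul_comm s (p - 1)]
    rw [h2, Finset.sum_const, Finset.card_univ, Fintype.card_fin, smul_eq_mul] at h1
    exact lt_irrefl _ h1
  have hle : ∀ B ∈ BB p s d, ∀ i j, B i j < p := by
    intro B hBB i j
    have h1 : B i j ≤ ∑ j, B i j := Finset.single_le_sum (fun _ _ => Nat.zero_le _)
      (Finset.mem_univ j)
    rw [hB B hBB i] at h1
    omega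
  let j₀ : Fin d := ⟨0, by omega⟩
  let key : (Fin s → (Fin d →₀ ℕ)) → Fin d × (Fin s → Fin p) := fun B =>
    if h : ∃ j : Fin d, d * ∑ i, B i j ≤ (p - 1) * s then
      (h.choose, fun i => ⟨B i h.choose % p, Nat.mod_lt _ hp⟩)
    else (j₀, fun _ => ⟨0, hp⟩)
  have hkey : ∀ B ∈ BB p s d, key B ∈ TT p s d ∧ ∀ i, ((key B).2 i).val = B i (key B).1 := by
    intro B hBB
    have h := hex B hBB
    have h1 : key B = (h.choose, fun i => ⟨B i h.choose % p, Nat.mod_lt _ hp⟩) := dif_pos h
    have h2 : ∀ i, ((key B).2 i).val = B i (key B).1 := by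
      intro i
      rw [h1]
      exact Nat.mod_eq_of_lt (hle B hBB i _)
    refine ⟨?_, h2⟩
    unfold TT
    rw [Finset.mem_filter]
    refine ⟨Finset.mem_univ _, ?_⟩
    rw [Finset.sum_congr rfl fun i _ => h2 i, h1]
    exact h.choose_spec
  have hsum : map (algebraMap K E) (form p a d) =
      ∑ x ∈ TT p s d, lf (p := p) t x.1 (fun i => (x.2 i).val) *
        ∑ B ∈ BB p s d with key B = x, ∏ j ∈ Finset.univ.erase x.1,
          lf (p := p) t j (fun i => B i j) := by
    rw [map_form t a ht d, ← Finset.sum_fiberwise_of_maps_to (fun B hB => (hkey B hB).1)]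
    refine Finset.sum_congr rfl fun x _ => ?_
    rw [Finset.mul_sum]
    refine Finset.sum_congr rfl fun B hBx => ?_
    rw [Finset.mem_filter] at hBx
    obtain ⟨hBB, hx⟩ := hBx
    rw [← Finset.mul_prod_erase Finset.univ _ (Finset.mem_univ x.1)]
    have h3 : (fun i => B i x.1) = fun i => (x.2 i).val := by
      funext i
      have h4 := (hkey B hBB).2 i
      rw [hx] at h4
      exact h4.symm
    rw [h3]
  let f := (TT p s d).equivFin
  refine ⟨fun k => lf (p := p) t (f.symm k).1.1 (fun i => ((f.symm k).1.2 i).val),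
    fun k => ∑ B ∈ BB p s d with key B = (f.symm k).1,
      ∏ j ∈ Finset.univ.erase (f.symm k).1.1, lf (p := p) t j (fun i => B i j), ?_, ?_⟩
  · intro k
    refine ⟨lt_of_le_of_lt (lf_degree t _ _) (by omega), ?_⟩
    refine lt_of_le_of_lt (b := d - 1) ?_ (by omega)
    refine totalDegree_finsetSum_le fun B _ => ?_
    refine (totalDegree_finsetProd _ _).trans ?_
    refine (Finset.sum_le_sum fun j _ => lf_degree t j _).trans ?_
    rw [Finset.sum_const, Finset.card_erase_of_mem (Finset.mem_univ _), Finset.card_univ,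
      Fintype.card_fin, smul_eq_mul, mul_one]
  · rw [hsum]
    rw [← Finset.sum_coe_sort (TT p s d) (fun x => lf (p := p) t x.1 (fun i => (x.2 i).val) *
        ∑ B ∈ BB p s d with key B = x, ∏ j ∈ Finset.univ.erase x.1,
          lf (p := p) t j (fun i => B i j))]
    exact (Equiv.sum_comp f.symm (fun x : TT p s d =>
      lf (p := p) t x.1.1 (fun i => (x.1.2 i).val) *
        ∑ B ∈ BB p s d with key B = x.1, ∏ j ∈ Finset.univ.erase x.1.1,
          lf (p := p) t j (fun i => B i j))).symm

end Run7.h288.SR
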